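import Pool.Agent.H33.ULT.Slice

/-!
# Homogeneous positive subsets
-/

set_option autoImplicit false

namespace Pool.H33ULT

open Set

/-- maximal rank of the elements of `x` of length `m` -/
noncomputable def rho (x : Set (List ℕ)) (m : ℕ) : ℕ := by
  classical exact Nat.findGreatest (fun r => Rk m r x) m

/-- indices with a rank -/
def act (x : Set (List ℕ)) : Set ℕ := {m | Rk m (rho x m) x}

theorem rho_spec {x : Set (List ℕ)} {m r : ℕ} (h : Rk m r x) : m ∈ act x ∧ r ≤ rho x m := by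
  classical
  constructor
  · unfold act rho
    exact Nat.findGreatest_spec (P := fun r => Rk m r x) (rk_le m r x h) h
  · unfold rho
    exact Nat.le_findGreatest (P := fun r => Rk m r x) (rk_le m r x h) h

/-- the ranks are unbounded on `M` -/
def Unb (x : Set (List ℕ)) (M : Set ℕ) : Prop := ∀ r, ∃ m ∈ M, r ≤ rho x m

theorem reg_unb (x : Set (List ℕ)) : Reg (Unb x) := by
  refine ⟨?_, ?_, ?_⟩
  · intro A B h hA r
    obtain ⟨m, hm, hr⟩ := hA r
    exact ⟨m, h hm, hr⟩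
  · intro A B h
    by_contra hn
    push Not at hn
    obtain ⟨h1, h2⟩ := hn
    unfold Unb at h1 h2
    push Not at h1 h2
    obtain ⟨r1, h1⟩ := h1
    obtain ⟨r2, h2⟩ := h2
    obtain ⟨m, hm, hr⟩ := h (max r1 r2)
    have h3 := le_max_left r1 r2
    have h4 := le_max_right r1 r2
    rcases hm with hm | hm
    · have := h1 m hm
      omega
    · have := h2 m hm
      omega
  · intro h
    obtain ⟨m, hm, _⟩ := h 0
    exact hm

theorem unb_act {x : Set (List ℕ)} (hx : PosS x) : Unb x (act x) := by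
  intro r
  obtain ⟨m, hm⟩ := hx r
  have := rho_spec hm
  exact ⟨m, this.1, this.2⟩

/-- union of pieces of different lengths -/
def join (M : Set ℕ) (Y : ℕ → Set (List ℕ)) : Set (List ℕ) := {s | s.length ∈ M ∧ s ∈ Y s.length}

theorem join_subset {M : Set ℕ} {Y : ℕ → Set (List ℕ)} {x : Set (List ℕ)}
    (h : ∀ m ∈ M, Y m ⊆ x) : join M Y ⊆ x := fun _ hs => h _ hs.1 hs.2

theorem rk_join {M : Set ℕ} {Y : ℕ → Set (List ℕ)} {m r : ℕ} (hm : m ∈ M) (h : Rk m r (Y m)) :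
    Rk m r (join M Y) := by
  refine rk_mono m r _ _ ?_ (rk_len m r _ h)
  rintro s ⟨h1, h2⟩
  have h3 : s.length = m := h2
  refine ⟨?_, ?_⟩
  · rw [h3]
    exact hm
  · rw [h3]
    exact h1

theorem posS_join {x : Set (List ℕ)} {M : Set ℕ} {Y : ℕ → Set (List ℕ)} (hM : Unb x M)
    (h : ∀ m ∈ M, Rk m (rho x m) (Y m) ∨ ∃ r', rho x m = r' + 1 ∧ Rk m r' (Y m)) :
    PosS (join M Y) := by
  intro r
  obtain ⟨m, hm, hr⟩ := hM (r + 1)
  refine ⟨m, ?_⟩
  rcases h m hm with h1 | ⟨r', hr', h1⟩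
  · exact rk_anti m _ (by omega) (rk_join hm h1)
  · exact rk_anti m _ (by omega) (rk_join hm h1)

/-- the requirement for a function `g : S → ℕ` and a bound `f` -/
def Thin (g : List ℕ → ℕ) (f : ℕ → ℕ) (y : Set (List ℕ)) : Prop :=
  (∃ c, ∀ s ∈ y, g s = c) ∨
  ∃ τ : List ℕ → ℕ, ∀ s ∈ y, f (τ s) ≤ g s ∧ ∀ s' ∈ y, τ s = τ s' → g s = g s'

theorem thin_dense (g : List ℕ → ℕ) (f : ℕ → ℕ) {x : Set (List ℕ)} (hx : PosS x) :
    ∃ y, y ⊆ x ∧ PosS y ∧ Thin g f y := by
  classical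
  have hsub : act x ⊆ {m | ∃ y, y ⊆ x ∧ Rk m (rho x m) y ∧ Con g y} ∪
      {m | ∃ r', rho x m = r' + 1 ∧ ∃ y, y ⊆ x ∧ Rk m r' y ∧
        Lab g (fun t => f (Nat.pair m (Encodable.encode t))) y} := by
    intro m hm
    exact thin_slice m (rho x m) x g (fun t => f (Nat.pair m (Encodable.encode t))) hm
  rcases (reg_unb x).union _ _ ((reg_unb x).mono _ _ hsub (unb_act hx)) with h1 | h2
  · -- constants
    set A := {m | ∃ y, y ⊆ x ∧ Rk m (rho x m) y ∧ Con g y} with hA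
    have h3 : ∀ m ∈ A, ∃ y, y ⊆ x ∧ Rk m (rho x m) y ∧ ∃ c, ∀ s ∈ y, g s = c := fun m hm => hm
    choose! Y hY1 hY2 c hc using h3
    by_cases hv : ∃ v, Unb x {m | m ∈ A ∧ c m = v}
    · obtain ⟨v, hv⟩ := hv
      refine ⟨join {m | m ∈ A ∧ c m = v} Y, join_subset fun m hm => hY1 m hm.1,
        posS_join hv fun m hm => Or.inl (hY2 m hm.1), Or.inl ⟨v, ?_⟩⟩
      rintro s ⟨hs1, hs2⟩
      rw [hc _ hs1.1 s hs2, hs1.2]
    · push Not at hv
      have h4 : ∀ k, ∃ m, m ∈ A ∧ f k ≤ c m ∧ k ≤ rho x m := by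
        intro k
        obtain ⟨m, hm, hr⟩ := reg_large_value (reg_unb x) A c h1 hv (f k) k
        exact ⟨m, hm.1, hm.2, hr⟩
      choose mm hmm1 hmm2 hmm3 using h4
      have hunb : Unb x (Set.range mm) := fun r => ⟨mm r, ⟨r, rfl⟩, hmm3 r⟩
      refine ⟨join (Set.range mm) Y, join_subset ?_, posS_join hunb ?_, Or.inr ?_⟩
      · rintro _ ⟨k, rfl⟩
        exact hY1 _ (hmm1 k)
      · rintro _ ⟨k, rfl⟩
        exact Or.inl (hY2 _ (hmm1 k))
      · refine ⟨fun s => if h : ∃ k, mm k = s.length then Nat.find h else 0, ?_⟩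
        have key : ∀ s ∈ join (Set.range mm) Y, ∃ k, (if h : ∃ k, mm k = s.length then Nat.find h
            else 0) = k ∧ mm k = s.length := by
          rintro s ⟨⟨k, hk⟩, hs2⟩
          have hex : ∃ k, mm k = s.length := ⟨k, hk⟩
          refine ⟨Nat.find hex, ?_, Nat.find_spec hex⟩
          rw [dif_pos hex]
        intro s hs
        obtain ⟨k, hk1, hk2⟩ := key s hs
        have hgs : g s = c (mm k) := by
          rw [hk2]
          refine hc _ ?_ s hs.2
          rw [← hk2]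
          exact hmm1 k
        refine ⟨?_, ?_⟩
        · change f (if h : ∃ k, mm k = s.length then Nat.find h else 0) ≤ g s
          rw [hk1, hgs]
          exact hmm2 k
        · intro s' hs' hss
          obtain ⟨k', hk1', hk2'⟩ := key s' hs'
          have hkk : k = k' := by
            rw [← hk1, ← hk1']
            exact hss
          have hgs' : g s' = c (mm k') := by
            rw [hk2']
            refine hc _ ?_ s' hs'.2
            rw [← hk2']
            exact hmm1 k'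
          rw [hgs, hgs', hkk]
  · -- labels
    set A := {m | ∃ r', rho x m = r' + 1 ∧ ∃ y, y ⊆ x ∧ Rk m r' y ∧
        Lab g (fun t => f (Nat.pair m (Encodable.encode t))) y} with hA
    have h3 : ∀ m ∈ A, ∃ y, y ⊆ x ∧ (∃ r', rho x m = r' + 1 ∧ Rk m r' y) ∧
        ∃ p : List ℕ → List ℕ, ∀ s ∈ y, f (Nat.pair m (Encodable.encode (p s))) ≤ g s ∧
          ∀ s' ∈ y, p s = p s' → g s = g s' := by
      rintro m ⟨r', hr', y, hy1, hy2, hy3⟩
      exact ⟨y, hy1, ⟨r', hr', hy2⟩, hy3⟩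
    choose! Y hY1 hY2 p hp using h3
    refine ⟨join A Y, join_subset hY1, posS_join h2 fun m hm => Or.inr (hY2 m hm), Or.inr ?_⟩
    refine ⟨fun s => Nat.pair s.length (Encodable.encode (p s.length s)), ?_⟩
    rintro s ⟨hs1, hs2⟩
    refine ⟨(hp _ hs1 s hs2).1, ?_⟩
    rintro s' ⟨hs1', hs2'⟩ hss
    have h4 := Nat.pair_eq_pair.1 hss
    have h5 : p s.length s = p s'.length s' := Encodable.encode_injective h4.2
    have h6 : s' ∈ Y s.length := by
      rw [h4.1]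
      exact hs2'
    refine (hp _ hs1 s hs2).2 s' h6 ?_
    rw [h5, h4.1]

theorem conv_dense (F : List ℕ → ℕ → Bool) {x : Set (List ℕ)} (hx : PosS x) :
    ∃ y, y ⊆ x ∧ PosS y ∧ (closure (F '' y)).Countable := by
  classical
  have h1 : ∀ m ∈ act x, ∃ z : ℕ → Bool, ∀ N, ∃ y, y ⊆ x ∧ Rk m (rho x m) y ∧
      (closure (F '' y)).Countable ∧ ∀ s ∈ y, F s ∈ cyl z N :=
    fun m hm => conv_slice m (rho x m) x F hm
  choose! zz hzz using h1
  obtain ⟨z, hz⟩ := reg_limit (reg_unb x) (act x) zz (unb_act hx)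
  have h2 : ∀ k, ∃ m, m ∈ act x ∧ zz m ∈ cyl z k ∧ k ≤ rho x m := by
    intro k
    obtain ⟨m, hm, hr⟩ := hz k k
    exact ⟨m, hm.1, hm.2, hr⟩
  choose mm hmm1 hmm2 hmm3 using h2
  have h3 : ∀ k, ∃ y, y ⊆ x ∧ Rk (mm k) (rho x (mm k)) y ∧
      (closure (F '' y)).Countable ∧ ∀ s ∈ y, F s ∈ cyl (zz (mm k)) k :=
    fun k => hzz (mm k) (hmm1 k) k
  choose Y hY1 hY2 hY3 hY4 using h3
  refine ⟨⋃ k ∈ (Set.univ : Set ℕ), Y k, ?_, ?_, ?_⟩
  · intro s hs
    simp only [mem_iUnion] at hs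
    obtain ⟨k, _, hk⟩ := hs
    exact hY1 k hk
  · intro r
    refine ⟨mm r, rk_anti _ _ (hmm3 r) (rk_mono _ _ _ _ ?_ (hY2 r))⟩
    intro s hs
    simp only [mem_iUnion]
    exact ⟨r, Set.mem_univ r, hs⟩
  · rw [Set.image_iUnion₂]
    refine closure_countable (fun k => F '' (Y k)) Set.univ z (fun k _ => hY3 k) fun K => ?_
    refine Set.Finite.subset (fin_lt K) ?_
    rintro k ⟨_, hbad⟩
    by_contra hcon
    apply hbad
    have hk : K ≤ k := not_lt.1 hcon
    rintro w ⟨s, hs, rfl⟩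
    exact cyl_trans (cyl_anti hk (hY4 k s hs)) (cyl_anti hk (hmm2 k))

end Pool.H33ULT
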