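import Mathlib

/-!
# Coordinates for compact sets of finite Cantor-Bendixson rank
-/

set_option autoImplicit false

namespace Pool.H33ULT

open Set Filter

theorem iter_mono (r : ℕ) {A B : Set (ℕ → Bool)} (h : A ⊆ B) :
    derivedSet^[r] A ⊆ derivedSet^[r] B := by
  induction r with
  | zero => exact h
  | succ r ih =>
    rw [Function.iterate_succ_apply', Function.iterate_succ_apply']
    exact derivedSet_mono _ _ ih

theorem iter_closed (r : ℕ) {A : Set (ℕ → Bool)} (h : IsClosed A) :
    IsClosed (derivedSet^[r] A) := by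
  cases r with
  | zero => exact h
  | succ r =>
    rw [Function.iterate_succ_apply']
    exact isClosed_derivedSet _

theorem iter_subset (r : ℕ) {A : Set (ℕ → Bool)} (h : IsClosed A) : derivedSet^[r] A ⊆ A := by
  induction r with
  | zero => exact Set.Subset.rfl
  | succ r ih =>
    rw [Function.iterate_succ_apply']
    exact ((isClosed_iff_derivedSet_subset _).1 (iter_closed r h)).trans ih

theorem finite_of_derivedSet_empty {D : Set (ℕ → Bool)} (h : derivedSet D = ∅) : D.Finite := by
  by_contra hD
  obtain ⟨x, hx⟩ := Set.Infinite.exists_accPt_principal (s := D) hD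
  have h1 : x ∈ derivedSet D := hx
  rw [h] at h1
  exact h1

theorem exists_sep {D : Set (ℕ → Bool)} (hD : D.Finite) :
    ∃ M₀ : ℕ, ∀ d ∈ D, ∀ d' ∈ D, (∀ j < M₀, d j = d' j) → d = d' := by
  classical
  let idx : (ℕ → Bool) × (ℕ → Bool) → ℕ := fun p => PiNat.firstDiff p.1 p.2 + 1
  obtain ⟨M₀, hM⟩ := ((hD.prod hD).image idx).bddAbove
  refine ⟨M₀, fun d hd d' hd' h => ?_⟩
  by_contra hne
  have h1 : idx (d, d') ≤ M₀ := hM ⟨(d, d'), ⟨hd, hd'⟩, rfl⟩
  have h2 : PiNat.firstDiff d d' < M₀ := by
    have : PiNat.firstDiff d d' + 1 ≤ M₀ := h1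
    omega
  exact PiNat.apply_firstDiff_ne hne (h _ h2)

theorem closed_agree (d : ℕ → Bool) (n : ℕ) : IsClosed {s : ℕ → Bool | ∀ i < n, s i = d i} := by
  have h1 : {s : ℕ → Bool | ∀ i < n, s i = d i} = ⋂ i, ⋂ (_ : i < n), {s | s i = d i} := by
    ext s
    simp
  rw [h1]
  refine isClosed_iInter fun i => isClosed_iInter fun _ => ?_
  exact isClosed_eq (continuous_apply i) continuous_const

theorem closed_ne (d : ℕ → Bool) (j : ℕ) : IsClosed {s : ℕ → Bool | s j ≠ d j} := by
  have h1 : {s : ℕ → Bool | s j ≠ d j} = (fun s : ℕ → Bool => s j) ⁻¹' {d j}ᶜ := by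
    ext s
    exact Iff.rfl
  rw [h1]
  exact (isClosed_discrete _).preimage (continuous_apply j)

theorem closed_far (d : ℕ → Bool) (n : ℕ) :
    IsClosed {s : ℕ → Bool | ∃ i < n, s i ≠ d i} := by
  have h1 : {s : ℕ → Bool | ∃ i < n, s i ≠ d i} = ⋃ i ∈ Finset.range n, {s | s i ≠ d i} := by
    ext s
    simp
  rw [h1]
  exact isClosed_biUnion_finset fun i _ => closed_ne d i

theorem min_trunc {x y N N' : ℕ} (h : min x N = min y N) (hN : N' ≤ N) :
    min x N' = min y N' := by omega

theorem coords (r : ℕ) : ∀ K : Set (ℕ → Bool), IsClosed K → derivedSet^[r] K = ∅ →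
    ∃ g : (ℕ → Bool) → ℕ → ℕ, ∀ M, ∃ N, ∀ s ∈ K, ∀ t ∈ K,
      (∀ i < 2 * r, min (g s i) N = min (g t i) N) → ∀ j < M, s j = t j := by
  classical
  induction r with
  | zero =>
    intro K _ hK
    refine ⟨fun _ _ => 0, fun M => ⟨0, fun s hs => ?_⟩⟩
    have hK' : K = ∅ := hK
    rw [hK'] at hs
    exact absurd hs (Set.notMem_empty s)
  | succ r ih =>
    intro K hKc hK
    rw [Function.iterate_succ_apply'] at hK
    have hDf : (derivedSet^[r] K).Finite := finite_of_derivedSet_empty hK
    obtain ⟨M₀, hM₀⟩ := exists_sep hDf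
    obtain ⟨code, hcode⟩ := Set.countable_iff_exists_injOn.1 hDf.countable
    obtain ⟨q, hq⟩ := (hDf.image code).bddAbove
    -- the pieces
    have hQ1 : ∀ (d : ℕ → Bool) (j : ℕ), ∃ g : (ℕ → Bool) → ℕ → ℕ, d ∈ derivedSet^[r] K →
        ∀ M, ∃ N, ∀ s ∈ K ∩ {s | (∀ i < M₀, s i = d i) ∧ (∀ i < j, s i = d i) ∧ s j ≠ d j},
          ∀ t ∈ K ∩ {s | (∀ i < M₀, s i = d i) ∧ (∀ i < j, s i = d i) ∧ s j ≠ d j},
          (∀ i < 2 * r, min (g s i) N = min (g t i) N) → ∀ i < M, s i = t i := by
      intro d j
      by_cases hd : d ∈ derivedSet^[r] K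
      · have hc : IsClosed (K ∩ {s | (∀ i < M₀, s i = d i) ∧ (∀ i < j, s i = d i) ∧ s j ≠ d j}) :=
          hKc.inter ((closed_agree d M₀).inter ((closed_agree d j).inter (closed_ne d j)))
        have he : derivedSet^[r]
            (K ∩ {s | (∀ i < M₀, s i = d i) ∧ (∀ i < j, s i = d i) ∧ s j ≠ d j}) = ∅ := by
          refine Set.eq_empty_of_forall_notMem fun x hx => ?_
          have h1 := iter_mono r Set.inter_subset_left hx
          have h2 := iter_subset r hc hx
          have h3 := hM₀ x h1 d hd h2.2.1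
          exact h2.2.2.2 (by rw [h3])
        obtain ⟨g, hg⟩ := ih _ hc he
        exact ⟨g, fun _ => hg⟩
      · exact ⟨fun _ _ => 0, fun h => absurd h hd⟩
    have hQ0 : ∃ g : (ℕ → Bool) → ℕ → ℕ,
        ∀ M, ∃ N, ∀ s ∈ K ∩ {s | ∀ d ∈ derivedSet^[r] K, ∃ i < M₀, s i ≠ d i},
          ∀ t ∈ K ∩ {s | ∀ d ∈ derivedSet^[r] K, ∃ i < M₀, s i ≠ d i},
          (∀ i < 2 * r, min (g s i) N = min (g t i) N) → ∀ i < M, s i = t i := by
      have hc : IsClosed (K ∩ {s | ∀ d ∈ derivedSet^[r] K, ∃ i < M₀, s i ≠ d i}) := by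
        refine hKc.inter ?_
        have h1 : {s : ℕ → Bool | ∀ d ∈ derivedSet^[r] K, ∃ i < M₀, s i ≠ d i} =
            ⋂ d ∈ derivedSet^[r] K, {s | ∃ i < M₀, s i ≠ d i} := by
          ext s
          simp
        rw [h1]
        exact isClosed_biInter fun d _ => closed_far d M₀
      refine ih _ hc (Set.eq_empty_of_forall_notMem fun x hx => ?_)
      have h1 := iter_mono r Set.inter_subset_left hx
      have h2 := iter_subset r hc hx
      obtain ⟨i, _, hi⟩ := h2.2 x h1
      exact hi rfl
    choose g1 hg1 using hQ1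
    obtain ⟨g0, hg0⟩ := hQ0
    choose N0 hN0 using hg0
    have hg1' : ∀ (d : ℕ → Bool) (j M : ℕ), ∃ N, d ∈ derivedSet^[r] K →
        ∀ s ∈ K ∩ {s | (∀ i < M₀, s i = d i) ∧ (∀ i < j, s i = d i) ∧ s j ≠ d j},
          ∀ t ∈ K ∩ {s | (∀ i < M₀, s i = d i) ∧ (∀ i < j, s i = d i) ∧ s j ≠ d j},
          (∀ i < 2 * r, min (g1 d j s i) N = min (g1 d j t i) N) → ∀ i < M, s i = t i := by
      intro d j M
      by_cases hd : d ∈ derivedSet^[r] K
      · obtain ⟨N, hN⟩ := hg1 d j hd M
        exact ⟨N, fun _ => hN⟩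
      · exact ⟨0, fun h => absurd h hd⟩
    choose N1 hN1 using hg1'
    let near : (ℕ → Bool) → Prop := fun s => ∃ d ∈ derivedSet^[r] K, ∀ i < M₀, s i = d i
    have hpt : ∀ s, ∃ d, near s → d ∈ derivedSet^[r] K ∧ ∀ i < M₀, s i = d i := by
      intro s
      by_cases h : near s
      · obtain ⟨d, hd⟩ := h
        exact ⟨d, fun _ => hd⟩
      · exact ⟨s, fun h' => absurd h' h⟩
    choose pt hpt using hpt
    let g : (ℕ → Bool) → ℕ → ℕ := fun s i =>
      if near s then
        (if i = 0 then code (pt s) + 1 else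
          if i = 1 then (if s = pt s then 0 else PiNat.firstDiff s (pt s) + 1) else
            g1 (pt s) (PiNat.firstDiff s (pt s)) s (i - 2))
      else (if i = 0 then 0 else if i = 1 then 0 else g0 s (i - 2))
    refine ⟨g, fun M => ?_⟩
    refine ⟨M + 2 + (q + 2) + N0 M +
      ∑ d ∈ hDf.toFinset, ∑ j ∈ Finset.range M, N1 d j M, ?_⟩
    intro s hs t ht hst
    have h0 := hst 0 (by omega)
    have h1 := hst 1 (by omega)
    have h2 : ∀ i < 2 * r, min (g s (i + 2)) _ = min (g t (i + 2)) _ := fun i hi =>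
      hst (i + 2) (by omega)
    by_cases hns : near s
    · have hps := hpt s hns
      have hcs : code (pt s) ≤ q := hq ⟨_, hps.1, rfl⟩
      by_cases hnt : near t
      · have hpt' := hpt t hnt
        have hct : code (pt t) ≤ q := hq ⟨_, hpt'.1, rfl⟩
        simp only [g, if_pos hns, if_pos hnt, if_true] at h0
        have hcc : code (pt s) = code (pt t) := by omega
        have hpp : pt s = pt t := hcode hps.1 hpt'.1 hcc
        simp only [g, if_pos hns, if_pos hnt, one_ne_zero, if_false, if_true] at h1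
        rw [← hpp] at h1 hpt'
        by_cases hs' : s = pt s
        · rw [if_pos hs'] at h1
          by_cases ht' : t = pt s
          · intro j _
            rw [hs', ← ht']
          · rw [if_neg ht'] at h1
            omega
        · rw [if_neg hs'] at h1
          by_cases ht' : t = pt s
          · rw [if_pos ht'] at h1
            omega
          · rw [if_neg ht'] at h1
            by_cases hj : PiNat.firstDiff s (pt s) < M
            · have hjj : PiNat.firstDiff t (pt s) = PiNat.firstDiff s (pt s) := by omega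
              have hsQ : s ∈ K ∩ {x | (∀ i < M₀, x i = pt s i) ∧
                  (∀ i < PiNat.firstDiff s (pt s), x i = pt s i) ∧
                  x (PiNat.firstDiff s (pt s)) ≠ pt s (PiNat.firstDiff s (pt s))} :=
                ⟨hs, hps.2, fun i hi => PiNat.apply_eq_of_lt_firstDiff hi,
                  PiNat.apply_firstDiff_ne hs'⟩
              have htQ : t ∈ K ∩ {x | (∀ i < M₀, x i = pt s i) ∧
                  (∀ i < PiNat.firstDiff s (pt s), x i = pt s i) ∧
                  x (PiNat.firstDiff s (pt s)) ≠ pt s (PiNat.firstDiff s (pt s))} := by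
                refine ⟨ht, hpt'.2, fun i hi => ?_, ?_⟩
                · exact PiNat.apply_eq_of_lt_firstDiff (by rw [hjj]; exact hi)
                · rw [← hjj]
                  exact PiNat.apply_firstDiff_ne ht'
              refine hN1 (pt s) (PiNat.firstDiff s (pt s)) M hps.1 s hsQ t htQ ?_
              intro i hi
              have h3 := h2 i hi
              simp only [g, if_pos hns, if_pos hnt, Nat.add_eq_zero_iff, OfNat.ofNat_ne_zero,
                and_false, if_false, Nat.add_sub_cancel] at h3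
              have hi1 : ¬ (i + 2 = 1) := by omega
              rw [if_neg hi1, if_neg hi1, ← hpp, hjj] at h3
              refine min_trunc h3 ?_
              have h4 : N1 (pt s) (PiNat.firstDiff s (pt s)) M ≤
                  ∑ j ∈ Finset.range M, N1 (pt s) j M :=
                Finset.single_le_sum (f := fun j => N1 (pt s) j M) (fun _ _ => Nat.zero_le _)
                  (Finset.mem_range.2 hj)
              have h5 : ∑ j ∈ Finset.range M, N1 (pt s) j M ≤
                  ∑ d ∈ hDf.toFinset, ∑ j ∈ Finset.range M, N1 d j M :=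
                Finset.single_le_sum (f := fun d => ∑ j ∈ Finset.range M, N1 d j M)
                  (fun _ _ => Nat.zero_le _) (hDf.mem_toFinset.2 hps.1)
              omega
            · have hjt : M ≤ PiNat.firstDiff t (pt s) := by omega
              intro j hj'
              rw [PiNat.apply_eq_of_lt_firstDiff (x := s) (y := pt s) (by omega),
                PiNat.apply_eq_of_lt_firstDiff (x := t) (y := pt s) (by omega)]
      · simp only [g, if_pos hns, if_neg hnt, if_true] at h0
        omega
    · by_cases hnt : near t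
      · have hpt' := hpt t hnt
        simp only [g, if_neg hns, if_pos hnt, if_true] at h0
        omega
      · have hfar : ∀ x, ¬ near x → ∀ d ∈ derivedSet^[r] K, ∃ i < M₀, x i ≠ d i := by
          intro x hx d hd
          by_contra hc
          push Not at hc
          exact hx ⟨d, hd, hc⟩
        refine hN0 M s ⟨hs, hfar s hns⟩ t ⟨ht, hfar t hnt⟩ ?_
        intro i hi
        have h3 := h2 i hi
        simp only [g, if_neg hns, if_neg hnt, Nat.add_eq_zero_iff, OfNat.ofNat_ne_zero,
          and_false, if_false, Nat.add_sub_cancel] at h3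
        have hi1 : ¬ (i + 2 = 1) := by omega
        rw [if_neg hi1, if_neg hi1] at h3
        exact min_trunc h3 (by omega)

end Pool.H33ULT
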