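import Pool.Agent.H33.ULT.Tree

/-!
# Homogeneous subsets inside the sequences of length `m`
-/

set_option autoImplicit false

namespace Pool.H33ULT

open Set

/-- glue sets of sequences at the root -/
def glue (A : Set ℕ) (Y : ℕ → Set (List ℕ)) : Set (List ℕ) := {l | ∃ i ∈ A, ∃ s ∈ Y i, l = i :: s}

theorem subset_sec_glue {A : Set ℕ} {Y : ℕ → Set (List ℕ)} {i : ℕ} (hi : i ∈ A) :
    Y i ⊆ sec (glue A Y) i := fun s hs => ⟨i, hi, s, hs, rfl⟩

theorem glue_subset {A : Set ℕ} {Y : ℕ → Set (List ℕ)} {x : Set (List ℕ)}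
    (h : ∀ i ∈ A, Y i ⊆ sec x i) : glue A Y ⊆ x := by
  rintro l ⟨i, hi, s, hs, rfl⟩
  exact h i hi hs

theorem rk_glue_one {m r i : ℕ} {Y : ℕ → Set (List ℕ)} {A : Set ℕ} (hi : i ∈ A)
    (h : Rk m r (Y i)) : Rk (m + 1) r (glue A Y) := by
  have h1 := rk_mono m r _ _ (subset_sec_glue (Y := Y) hi) h
  cases r with
  | zero => exact ⟨i, h1⟩
  | succ r => exact Or.inl ⟨i, h1⟩

theorem rk_glue_pos {m r : ℕ} {Y : ℕ → Set (List ℕ)} {A : Set ℕ} (hA : Pos A)
    (h : ∀ i ∈ A, Rk m r (Y i)) : Rk (m + 1) (r + 1) (glue A Y) :=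
  Or.inr (pos_mono (fun i hi => rk_mono m r _ _ (subset_sec_glue (Y := Y) hi) (h i hi)) hA)

/-- `g` is constant on `y` -/
def Con (g : List ℕ → ℕ) (y : Set (List ℕ)) : Prop := ∃ c, ∀ s ∈ y, g s = c

/-- the values of `g` on `y` can be labelled by the sequences `p s`, and a value with label `t` is at
least `B t` -/
def Lab (g B : List ℕ → ℕ) (y : Set (List ℕ)) : Prop :=
  ∃ p : List ℕ → List ℕ, ∀ s ∈ y, B (p s) ≤ g s ∧ ∀ s' ∈ y, p s = p s' → g s = g s'

/-- label function for a glued set -/
def pcons (p : ℕ → List ℕ → List ℕ) : List ℕ → List ℕ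
  | [] => []
  | i :: s => i :: p i s

theorem lab_glue {g B : List ℕ → ℕ} {A : Set ℕ} {Y : ℕ → Set (List ℕ)}
    (h : ∀ i ∈ A, Lab (fun s => g (i :: s)) (fun t => B (i :: t)) (Y i)) : Lab g B (glue A Y) := by
  classical
  choose! p hp using h
  refine ⟨pcons p, ?_⟩
  rintro l ⟨i, hi, s, hs, rfl⟩
  refine ⟨(hp i hi s hs).1, ?_⟩
  rintro l' ⟨i', hi', s', hs', rfl⟩ hpp
  simp only [pcons, List.cons.injEq] at hpp
  obtain ⟨rfl, hpp⟩ := hpp
  exact (hp i hi s hs).2 s' hs' hpp

theorem thin_slice (m : ℕ) : ∀ (r : ℕ) (x : Set (List ℕ)) (g B : List ℕ → ℕ), Rk m r x →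
    (∃ y, y ⊆ x ∧ Rk m r y ∧ Con g y) ∨
    (∃ r', r = r' + 1 ∧ ∃ y, y ⊆ x ∧ Rk m r' y ∧ Lab g B y) := by
  classical
  induction m with
  | zero =>
    intro r x g B h
    cases r with
    | zero =>
      left
      refine ⟨{[]}, ?_, Set.mem_singleton _, g [], ?_⟩
      · intro s hs
        rw [Set.mem_singleton_iff] at hs
        rw [hs]
        exact h
      · intro s hs
        rw [Set.mem_singleton_iff] at hs
        rw [hs]
    | succ r => exact absurd h id
  | succ m ih =>
    intro r x g B h
    -- the case of one section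
    have one : ∀ i, Rk m r (sec x i) →
        (∃ y, y ⊆ x ∧ Rk (m + 1) r y ∧ Con g y) ∨
        (∃ r', r = r' + 1 ∧ ∃ y, y ⊆ x ∧ Rk (m + 1) r' y ∧ Lab g B y) := by
      intro i hi
      rcases ih r (sec x i) (fun s => g (i :: s)) (fun t => B (i :: t)) hi with
        ⟨y, hy1, hy2, c, hc⟩ | ⟨r', hr', y, hy1, hy2, hy3⟩
      · left
        refine ⟨glue {i} (fun _ => y), glue_subset ?_, rk_glue_one (Set.mem_singleton i) hy2,
          c, ?_⟩
        · intro j hj
          rw [Set.mem_singleton_iff] at hj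
          rw [hj]
          exact hy1
        · rintro l ⟨j, hj, s, hs, rfl⟩
          rw [Set.mem_singleton_iff] at hj
          rw [hj]
          exact hc s hs
      · right
        refine ⟨r', hr', glue {i} (fun _ => y), glue_subset ?_,
          rk_glue_one (Set.mem_singleton i) hy2, lab_glue ?_⟩
        · intro j hj
          rw [Set.mem_singleton_iff] at hj
          rw [hj]
          exact hy1
        · intro j hj
          rw [Set.mem_singleton_iff] at hj
          rw [hj]
          exact hy3
    cases r with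
    | zero =>
      obtain ⟨i, hi⟩ := h
      exact one i hi
    | succ r =>
      rcases h with ⟨i, hi⟩ | h
      · exact one i hi
      · -- many sections
        have hsub : {i | Rk m r (sec x i)} ⊆
            {i | ∃ y, y ⊆ sec x i ∧ Rk m r y ∧ Con (fun s => g (i :: s)) y} ∪
            {i | ∃ r', r = r' + 1 ∧ ∃ y, y ⊆ sec x i ∧ Rk m r' y ∧
              Lab (fun s => g (i :: s)) (fun t => B (i :: t)) y} := by
          intro i hi
          exact ih r (sec x i) (fun s => g (i :: s)) (fun t => B (i :: t)) hi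
        rcases pos_union (pos_mono hsub h) with h1 | h2
        · -- constant on sections
          set A := {i | ∃ y, y ⊆ sec x i ∧ Rk m r y ∧ Con (fun s => g (i :: s)) y} with hA
          have h3 : ∀ i ∈ A, ∃ y, y ⊆ sec x i ∧ Rk m r y ∧ ∃ c, ∀ s ∈ y, g (i :: s) = c :=
            fun i hi => hi
          choose! Y hY1 hY2 c hc using h3
          by_cases hv : ∃ v, Pos {i | i ∈ A ∧ c i = v}
          · obtain ⟨v, hv⟩ := hv
            left
            refine ⟨glue {i | i ∈ A ∧ c i = v} Y, glue_subset fun i hi => hY1 i hi.1,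
              rk_glue_pos hv fun i hi => hY2 i hi.1, v, ?_⟩
            rintro l ⟨i, hi, s, hs, rfl⟩
            rw [hc i hi.1 s hs, hi.2]
          · push Not at hv
            have h4 := reg_large_value reg_pos A c h1 hv (B [])
            obtain ⟨i, hi, hci⟩ := pos_nonempty h4
            right
            refine ⟨r, rfl, glue {i} Y, glue_subset ?_, rk_glue_one (Set.mem_singleton i)
              (hY2 i hi), fun _ => [], ?_⟩
            · intro j hj
              rw [Set.mem_singleton_iff] at hj
              rw [hj]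
              exact hY1 i hi
            · rintro l ⟨j, hj, s, hs, rfl⟩
              rw [Set.mem_singleton_iff] at hj
              subst hj
              refine ⟨by rw [hc j hi s hs]; exact hci, ?_⟩
              rintro l' ⟨j', hj', s', hs', rfl⟩ _
              rw [Set.mem_singleton_iff] at hj'
              subst hj'
              rw [hc j' hi s hs, hc j' hi s' hs']
        · -- labelled on sections
          obtain ⟨i0, r', hr', _⟩ := pos_nonempty h2
          subst hr'
          right
          set A := {i | ∃ r'', r' + 1 = r'' + 1 ∧ ∃ y, y ⊆ sec x i ∧ Rk m r'' y ∧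
              Lab (fun s => g (i :: s)) (fun t => B (i :: t)) y} with hA
          have h3 : ∀ i ∈ A, ∃ y, y ⊆ sec x i ∧ Rk m r' y ∧
              Lab (fun s => g (i :: s)) (fun t => B (i :: t)) y := by
            rintro i ⟨r'', hr'', y, hy⟩
            have : r'' = r' := by omega
            subst this
            exact ⟨y, hy⟩
          choose! Y hY1 hY2 hY3 using h3
          exact ⟨r' + 1, rfl, glue A Y, glue_subset hY1, rk_glue_pos h2 hY2, lab_glue hY3⟩

theorem image_glue_one (F : List ℕ → ℕ → Bool) (i : ℕ) (y : Set (List ℕ)) :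
    F '' (glue {i} fun _ => y) = (fun s => F (i :: s)) '' y := by
  ext w
  constructor
  · rintro ⟨l, ⟨j, hj, s, hs, rfl⟩, rfl⟩
    rw [Set.mem_singleton_iff] at hj
    subst hj
    exact ⟨s, hs, rfl⟩
  · rintro ⟨s, hs, rfl⟩
    exact ⟨i :: s, ⟨i, Set.mem_singleton i, s, hs, rfl⟩, rfl⟩

theorem image_glue (F : List ℕ → ℕ → Bool) (A : Set ℕ) (Y : ℕ → Set (List ℕ)) :
    F '' (glue A Y) = ⋃ i ∈ A, (fun s => F (i :: s)) '' (Y i) := by
  ext w
  simp only [mem_iUnion]
  constructor
  · rintro ⟨l, ⟨j, hj, s, hs, rfl⟩, rfl⟩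
    exact ⟨j, hj, s, hs, rfl⟩
  · rintro ⟨i, hi, s, hs, rfl⟩
    exact ⟨i :: s, ⟨i, hi, s, hs, rfl⟩, rfl⟩

theorem conv_slice (m : ℕ) : ∀ (r : ℕ) (x : Set (List ℕ)) (F : List ℕ → ℕ → Bool), Rk m r x →
    ∃ z : ℕ → Bool, ∀ N, ∃ y, y ⊆ x ∧ Rk m r y ∧ (closure (F '' y)).Countable ∧
      ∀ s ∈ y, F s ∈ cyl z N := by
  classical
  induction m with
  | zero =>
    intro r x F h
    cases r with
    | zero =>
      refine ⟨F [], fun N => ⟨{[]}, ?_, Set.mem_singleton _, ?_, ?_⟩⟩
      · intro s hs
        rw [Set.mem_singleton_iff] at hs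
        rw [hs]
        exact h
      · rw [Set.image_singleton, closure_singleton]
        exact Set.countable_singleton _
      · intro s hs
        rw [Set.mem_singleton_iff] at hs
        rw [hs]
        exact mem_cyl_self _ _
    | succ r => exact absurd h id
  | succ m ih =>
    intro r x F h
    have one : ∀ i, Rk m r (sec x i) → ∃ z : ℕ → Bool, ∀ N, ∃ y, y ⊆ x ∧ Rk (m + 1) r y ∧
        (closure (F '' y)).Countable ∧ ∀ s ∈ y, F s ∈ cyl z N := by
      intro i hi
      obtain ⟨z, hz⟩ := ih r (sec x i) (fun s => F (i :: s)) hi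
      refine ⟨z, fun N => ?_⟩
      obtain ⟨y, hy1, hy2, hy3, hy4⟩ := hz N
      refine ⟨glue {i} (fun _ => y), glue_subset ?_, rk_glue_one (Set.mem_singleton i) hy2, ?_, ?_⟩
      · intro j hj
        rw [Set.mem_singleton_iff] at hj
        rw [hj]
        exact hy1
      · rw [image_glue_one]
        exact hy3
      · rintro l ⟨j, hj, s, hs, rfl⟩
        rw [Set.mem_singleton_iff] at hj
        rw [hj]
        exact hy4 s hs
    cases r with
    | zero =>
      obtain ⟨i, hi⟩ := h
      exact one i hi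
    | succ r =>
      rcases h with ⟨i, hi⟩ | h
      · exact one i hi
      · set A := {i | Rk m r (sec x i)} with hA
        have h1 : ∀ i ∈ A, ∃ z : ℕ → Bool, ∀ N, ∃ y, y ⊆ sec x i ∧ Rk m r y ∧
            (closure ((fun s => F (i :: s)) '' y)).Countable ∧ ∀ s ∈ y, F (i :: s) ∈ cyl z N :=
          fun i hi => ih r (sec x i) (fun s => F (i :: s)) hi
        choose! zz hzz using h1
        obtain ⟨z, hz⟩ := reg_limit reg_pos A zz h
        refine ⟨z, fun N => ?_⟩
        obtain ⟨A', hA'1, hA'2, hA'3⟩ := pos_pplus (fun K => {i | i ∈ A ∧ zz i ∈ cyl z (N + K)})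
          (fun K i hi => ⟨hi.1, cyl_anti (by omega) hi.2⟩) (fun K => hz (N + K))
        have h2 : ∀ i ∈ A', ∃ y, y ⊆ sec x i ∧ Rk m r y ∧
            (closure ((fun s => F (i :: s)) '' y)).Countable ∧
            ∀ s ∈ y, F (i :: s) ∈ cyl (zz i) (N + i) :=
          fun i hi => hzz i (hA'2 hi).1 (N + i)
        choose! Y hY1 hY2 hY3 hY4 using h2
        refine ⟨glue A' Y, glue_subset hY1, rk_glue_pos hA'1 hY2, ?_, ?_⟩
        · rw [image_glue]
          refine closure_countable _ A' z hY3 fun K => ?_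
          refine Set.Finite.subset ((hA'3 K).union (fin_lt K)) ?_
          rintro i ⟨hi, hbad⟩
          by_contra hcon
          apply hbad
          have h3 : ¬ (i ∈ A' \ {i | i ∈ A ∧ zz i ∈ cyl z (N + K)}) := fun h => hcon (Or.inl h)
          have h4 : ¬ i < K := fun h => hcon (Or.inr h)
          have h5 : zz i ∈ cyl z (N + K) := by
            by_contra h6
            exact h3 ⟨hi, fun h7 => h6 h7.2⟩
          rintro w ⟨s, hs, rfl⟩
          exact cyl_trans (cyl_anti (by omega) (hY4 i hi s hs)) (cyl_anti (by omega) h5)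
        · rintro l ⟨i, hi, s, hs, rfl⟩
          have h5 : zz i ∈ cyl z N := cyl_anti (by omega) (hA'2 hi).2
          exact cyl_trans (cyl_anti (by omega) (hY4 i hi s hs)) h5

/-! ## Counting pieces -/

/-- sequences with bounded length and bounded entries -/
theorem finite_lists (K : ℕ) (m : ℕ) : {l : List ℕ | l.length ≤ m ∧ ∀ a ∈ l, a < K}.Finite := by
  induction m with
  | zero =>
    refine Set.Finite.subset (Set.finite_singleton []) ?_
    rintro l ⟨hl, _⟩
    exact List.length_eq_zero_iff.1 (Nat.le_zero.1 hl)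
  | succ m ih =>
    have h1 : {l : List ℕ | l.length ≤ m + 1 ∧ ∀ a ∈ l, a < K} ⊆
        {[]} ∪ ⋃ i ∈ Finset.range K, (fun l => i :: l) '' {l : List ℕ | l.length ≤ m ∧
          ∀ a ∈ l, a < K} := by
      rintro l ⟨hl, ha⟩
      cases l with
      | nil => exact Or.inl rfl
      | cons i l =>
        right
        simp only [Finset.mem_range, mem_iUnion]
        refine ⟨i, ha i (List.mem_cons_self), l, ⟨?_, fun a h => ha a (List.mem_cons_of_mem i h)⟩,
          rfl⟩
        rw [List.length_cons] at hl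
        omega
    refine Set.Finite.subset ?_ h1
    refine (Set.finite_singleton _).union ?_
    exact Set.Finite.biUnion (Finset.finite_toSet _) fun i _ => ih.image _

/-- the part of `s` before the first entry `≥ n²` -/
def cut (n : ℕ) (s : List ℕ) : List ℕ := s.takeWhile (fun a => decide (a < n * n))

theorem cut_cons_lt {n i : ℕ} (h : i < n * n) (s : List ℕ) : cut n (i :: s) = i :: cut n s := by
  unfold cut
  rw [List.takeWhile_cons_of_pos (by simpa using h)]

theorem cut_mem (n m : ℕ) (s : List ℕ) (hs : s.length ≤ m) :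
    cut n s ∈ {l : List ℕ | l.length ≤ m ∧ ∀ a ∈ l, a < n * n} := by
  refine ⟨?_, ?_⟩
  · exact (List.IsPrefix.length_le (List.takeWhile_prefix _)).trans hs
  · intro a ha
    have := List.mem_takeWhile_imp ha
    simpa using this

theorem cut_image_finite (n m : ℕ) (y : Set (List ℕ)) (h : ∀ s ∈ y, s.length ≤ m) :
    (cut n '' y).Finite := by
  refine Set.Finite.subset (finite_lists (n * n) m) ?_
  rintro _ ⟨s, hs, rfl⟩
  exact cut_mem n m s (h s hs)

theorem many_pieces (m : ℕ) : ∀ (r : ℕ) (y : Set (List ℕ)), Rk m (r + 1) y →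
    ∀ D, ∃ n, D ≤ n ∧ n + 1 < (cut n '' (y ∩ len m)).ncard := by
  classical
  induction m with
  | zero => exact fun r y h => absurd h id
  | succ m ih =>
    intro r y h D
    rcases h with ⟨i, hi⟩ | h
    · obtain ⟨n, hn1, hn2⟩ := ih r (sec y i) hi (max D (i + 1))
      have hD : D ≤ n := (le_max_left _ _).trans hn1
      have hin : i + 1 ≤ n := (le_max_right _ _).trans hn1
      have hlt : i < n * n := by nlinarith
      refine ⟨n, hD, lt_of_lt_of_le hn2 ?_⟩
      have h1 : (fun l => i :: l) '' (cut n '' (sec y i ∩ len m)) ⊆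
          cut n '' (y ∩ len (m + 1)) := by
        rintro _ ⟨_, ⟨s, ⟨hs1, hs2⟩, rfl⟩, rfl⟩
        refine ⟨i :: s, ⟨hs1, ?_⟩, cut_cons_lt hlt s⟩
        change (i :: s).length = m + 1
        rw [List.length_cons]
        exact congrArg (· + 1) hs2
      have h2 : ((fun l => i :: l) '' (cut n '' (sec y i ∩ len m))).ncard =
          (cut n '' (sec y i ∩ len m)).ncard :=
        Set.ncard_image_of_injective _ (List.cons_injective)
      rw [← h2]
      refine Set.ncard_le_ncard h1 (cut_image_finite n (m + 1) _ ?_)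
      intro s hs
      exact le_of_eq hs.2
    · obtain ⟨n, hn⟩ := h (D + 1)
      have hcard : ({i | Rk m r (sec y i)} ∩ {k | k < n * n}).ncard ≤ n * n := by
        have := Set.ncard_le_ncard (Set.inter_subset_right (s := {i | Rk m r (sec y i)})
          (t := {k | k < n * n})) (fin_lt (n * n))
        rwa [ncard_lt] at this
      have hDn : D + 1 < n := by
        by_contra hcon
        push Not at hcon
        have h1 : n * n ≤ (D + 1) * (n + 1) := Nat.mul_le_mul hcon (by omega)
        omega
      refine ⟨n, by omega, ?_⟩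
      have h3 : ∀ i ∈ ({i | Rk m r (sec y i)} ∩ {k | k < n * n}), ∃ s, s ∈ sec y i ∧
          s.length = m := by
        rintro i ⟨hi, _⟩
        obtain ⟨s, hs, hl⟩ := rk_exists m r _ hi
        exact ⟨s, hs, hl⟩
      choose! s hs1 hs2 using h3
      have h4 : ({i | Rk m r (sec y i)} ∩ {k | k < n * n}).ncard ≤
          (cut n '' (y ∩ len (m + 1))).ncard := by
        refine Set.ncard_le_ncard_of_injOn (fun i => cut n (i :: s i)) ?_ ?_
          (cut_image_finite n (m + 1) _ fun s hs => le_of_eq hs.2)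
        · intro i hi
          refine ⟨i :: s i, ⟨hs1 i hi, ?_⟩, rfl⟩
          change (i :: s i).length = m + 1
          rw [List.length_cons, hs2 i hi]
        · intro i hi j hj hij
          have hij' : cut n (i :: s i) = cut n (j :: s j) := hij
          rw [cut_cons_lt hi.2, cut_cons_lt hj.2] at hij'
          exact (List.cons.inj hij').1
      have h5 : n + 1 ≤ (D + 1) * (n + 1) := Nat.le_mul_of_pos_left _ (Nat.succ_pos D)
      omega

end Pool.H33ULT
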