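import Mathlib

/-!
# Sets of finite sequences with many large splitting levels

Combinatorics for the construction (under CH) of a hereditarily rapid, countable closed ultrafilter
which is not a Laver ultrafilter (problem MP_f72c2d_lc).
-/

set_option autoImplicit false

namespace Pool.H33ULT

open Set

/-! ## Large sets of natural numbers -/

/-- `A` is large: the ratio `|A ∩ N²| / (N + 1)` is unbounded -/
def Pos (A : Set ℕ) : Prop := ∀ C : ℕ, ∃ N : ℕ, C * (N + 1) < (A ∩ {k | k < N * N}).ncard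

theorem fin_lt (N : ℕ) : ({k | k < N} : Set ℕ).Finite := Set.finite_lt_nat N

theorem fin_inter (A : Set ℕ) (N : ℕ) : (A ∩ {k | k < N}).Finite := (fin_lt N).inter_of_right A

theorem ncard_lt (N : ℕ) : ({k | k < N} : Set ℕ).ncard = N := by
  have h : ({k | k < N} : Set ℕ) = ((Finset.range N : Finset ℕ) : Set ℕ) := by
    ext k
    simp
  rw [h, Set.ncard_coe_finset, Finset.card_range]

theorem pos_mono {A B : Set ℕ} (h : A ⊆ B) (hA : Pos A) : Pos B := by
  intro C
  obtain ⟨N, hN⟩ := hA C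
  exact ⟨N, lt_of_lt_of_le hN
    (Set.ncard_le_ncard (Set.inter_subset_inter_left _ h) (fin_inter B _))⟩

theorem pos_union {A B : Set ℕ} (h : Pos (A ∪ B)) : Pos A ∨ Pos B := by
  by_contra hn
  push Not at hn
  obtain ⟨h1, h2⟩ := hn
  unfold Pos at h1 h2
  push Not at h1 h2
  obtain ⟨C1, h1⟩ := h1
  obtain ⟨C2, h2⟩ := h2
  obtain ⟨N, hN⟩ := h (C1 + C2)
  have h3 : ((A ∪ B) ∩ {k | k < N * N}).ncard ≤
      (A ∩ {k | k < N * N}).ncard + (B ∩ {k | k < N * N}).ncard := by
    rw [Set.union_inter_distrib_right]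
    exact Set.ncard_union_le _ _
  have h4 := h1 N
  have h5 := h2 N
  have h6 : (C1 + C2) * (N + 1) = C1 * (N + 1) + C2 * (N + 1) := by ring
  omega

theorem pos_nonempty {A : Set ℕ} (h : Pos A) : A.Nonempty := by
  obtain ⟨N, hN⟩ := h 0
  by_contra hA
  rw [Set.not_nonempty_iff_eq_empty] at hA
  rw [hA] at hN
  simp at hN

theorem not_pos_empty : ¬ Pos (∅ : Set ℕ) := fun h => by
  obtain ⟨x, hx⟩ := pos_nonempty h
  exact hx

theorem pos_univ : Pos (Set.univ : Set ℕ) := by
  intro C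
  refine ⟨C + 2, ?_⟩
  rw [Set.univ_inter, ncard_lt]
  nlinarith

/-- a property of sets of natural numbers with the properties of being large -/
structure Reg (Q : Set ℕ → Prop) : Prop where
  mono : ∀ A B : Set ℕ, A ⊆ B → Q A → Q B
  union : ∀ A B : Set ℕ, Q (A ∪ B) → Q A ∨ Q B
  empty : ¬ Q ∅

theorem reg_pos : Reg Pos := ⟨fun _ _ h => pos_mono h, fun _ _ h => pos_union h, not_pos_empty⟩

/-- finite unions -/
theorem reg_biUnion {Q : Set ℕ → Prop} (hQ : Reg Q) {ι : Type} (t : Finset ι) (B : ι → Set ℕ)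
    (h : Q (⋃ j ∈ t, B j)) : ∃ j ∈ t, Q (B j) := by
  classical
  induction t using Finset.induction_on with
  | empty => simp only [Finset.notMem_empty, iUnion_of_empty, iUnion_empty] at h
             exact absurd h hQ.empty
  | insert a t _ ih =>
    rw [Finset.set_biUnion_insert] at h
    rcases hQ.union _ _ h with h | h
    · exact ⟨a, Finset.mem_insert_self a t, h⟩
    · obtain ⟨j, hj, hj'⟩ := ih h
      exact ⟨j, Finset.mem_insert_of_mem hj, hj'⟩

/-- if no value of `c` is taken on a large part of `A`, then large values are taken on `A` -/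
theorem reg_large_value {Q : Set ℕ → Prop} (hQ : Reg Q) (A : Set ℕ) (c : ℕ → ℕ) (hA : Q A)
    (h : ∀ v, ¬ Q {i | i ∈ A ∧ c i = v}) (M : ℕ) : Q {i | i ∈ A ∧ M ≤ c i} := by
  have h1 : A ⊆ {i | i ∈ A ∧ M ≤ c i} ∪ ⋃ v ∈ Finset.range M, {i | i ∈ A ∧ c i = v} := by
    intro i hi
    by_cases hM : M ≤ c i
    · exact Or.inl ⟨hi, hM⟩
    · right
      simp only [Finset.mem_range, mem_iUnion]
      exact ⟨c i, by omega, hi, rfl⟩
  rcases hQ.union _ _ (hQ.mono _ _ h1 hA) with h2 | h2
  · exact h2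
  · obtain ⟨v, _, hv⟩ := reg_biUnion hQ _ _ h2
    exact absurd hv (h v)

/-- diagonal property -/
theorem pos_pplus (A : ℕ → Set ℕ) (hanti : ∀ K, A (K + 1) ⊆ A K) (hA : ∀ K, Pos (A K)) :
    ∃ A' : Set ℕ, Pos A' ∧ A' ⊆ A 0 ∧ ∀ K, (A' \ A K).Finite := by
  have hle : ∀ K L, K ≤ L → A L ⊆ A K := by
    intro K L h
    induction h with
    | refl => exact fun _ h => h
    | step _ ih => exact fun x hx => ih (hanti _ hx)
  choose N hN using fun K => hA K K
  refine ⟨⋃ K, (A K ∩ {k | k < N K * N K}), ?_, ?_, ?_⟩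
  · intro C
    refine ⟨N C, lt_of_lt_of_le (hN C) (Set.ncard_le_ncard ?_ (fin_inter _ _))⟩
    intro k hk
    exact ⟨Set.mem_iUnion.2 ⟨C, hk⟩, hk.2⟩
  · intro k hk
    obtain ⟨K, hK⟩ := Set.mem_iUnion.1 hk
    exact hle 0 K (Nat.zero_le K) hK.1
  · intro K
    have h1 : (⋃ L, (A L ∩ {k | k < N L * N L})) \ A K ⊆
        ⋃ L ∈ Finset.range K, {k | k < N L * N L} := by
      rintro k ⟨hk, hkK⟩
      obtain ⟨L, hL⟩ := Set.mem_iUnion.1 hk
      have hLK : L < K := by
        by_contra h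
        exact hkK (hle K L (by omega) hL.1)
      simp only [Finset.mem_range, mem_iUnion]
      exact ⟨L, hLK, hL.2⟩
    refine Set.Finite.subset ?_ h1
    exact Set.Finite.biUnion (Finset.finite_toSet _) fun L _ => fin_lt _

/-! ## Cylinders -/

/-- cylinder -/
def cyl (z : ℕ → Bool) (N : ℕ) : Set (ℕ → Bool) := {w | ∀ k < N, w k = z k}

theorem cyl_clopen (z : ℕ → Bool) (N : ℕ) : IsClopen (cyl z N) := by
  have h : cyl z N = ⋂ k ∈ Finset.range N, (fun w : ℕ → Bool => w k) ⁻¹' {z k} := by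
    ext w
    simp [cyl]
  rw [h]
  refine isClopen_biInter_finset fun k _ => ?_
  exact (isClopen_discrete _).preimage (continuous_apply k)

theorem mem_cyl_self (z : ℕ → Bool) (N : ℕ) : z ∈ cyl z N := fun _ _ => rfl

theorem cyl_anti {z : ℕ → Bool} {M N : ℕ} (h : M ≤ N) : cyl z N ⊆ cyl z M :=
  fun _ hw k hk => hw k (by omega)

theorem cyl_trans {w v z : ℕ → Bool} {K : ℕ} (h1 : w ∈ cyl v K) (h2 : v ∈ cyl z K) :
    w ∈ cyl z K := fun k hk => (h1 k hk).trans (h2 k hk)

/-- a limit point along a large set -/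
theorem reg_limit {Q : Set ℕ → Prop} (hQ : Reg Q) (A : Set ℕ) (zz : ℕ → ℕ → Bool) (hA : Q A) :
    ∃ z : ℕ → Bool, ∀ K, Q {i | i ∈ A ∧ zz i ∈ cyl z K} := by
  by_contra hcon
  push Not at hcon
  choose K hK using hcon
  obtain ⟨t, ht⟩ := CompactSpace.elim_nhds_subcover (fun z : ℕ → Bool => cyl z (K z))
    fun z => (cyl_clopen z (K z)).isOpen.mem_nhds (mem_cyl_self z _)
  have h1 : A ⊆ ⋃ z ∈ t, {i | i ∈ A ∧ zz i ∈ cyl z (K z)} := by
    intro i hi
    have h2 : zz i ∈ ⋃ z ∈ t, cyl z (K z) := by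
      rw [ht]
      exact Set.mem_univ _
    simp only [mem_iUnion] at h2 ⊢
    obtain ⟨z, hz, hz'⟩ := h2
    exact ⟨z, hz, hi, hz'⟩
  obtain ⟨z, _, hz⟩ := reg_biUnion hQ _ _ (hQ.mono _ _ h1 hA)
  exact hK z hz

/-- closure of a convergent union -/
theorem closure_countable {ι : Type} [Countable ι] (Y : ι → Set (ℕ → Bool)) (A : Set ι)
    (z : ℕ → Bool) (h1 : ∀ i ∈ A, (closure (Y i)).Countable)
    (h2 : ∀ K, {i | i ∈ A ∧ ¬ Y i ⊆ cyl z K}.Finite) :
    (closure (⋃ i ∈ A, Y i)).Countable := by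
  have h3 : closure (⋃ i ∈ A, Y i) ⊆ {z} ∪ ⋃ i ∈ A, closure (Y i) := by
    intro w hw
    by_cases hwz : w = z
    · exact Or.inl hwz
    · right
      obtain ⟨k, hk⟩ := Function.ne_iff.1 hwz
      have hw1 : w ∉ cyl z (k + 1) := fun h => hk (h k (Nat.lt_succ_self k))
      have h4 : (⋃ i ∈ A, Y i) ⊆ cyl z (k + 1) ∪
          ⋃ i ∈ {i | i ∈ A ∧ ¬ Y i ⊆ cyl z (k + 1)}, Y i := by
        intro v hv
        simp only [mem_iUnion] at hv
        obtain ⟨i, hi, hv⟩ := hv
        by_cases hs : Y i ⊆ cyl z (k + 1)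
        · exact Or.inl (hs hv)
        · right
          simp only [mem_iUnion]
          exact ⟨i, ⟨hi, hs⟩, hv⟩
      have h5 := closure_mono h4 hw
      rw [closure_union, (h2 (k + 1)).closure_biUnion, (cyl_clopen z _).isClosed.closure_eq] at h5
      rcases h5 with h5 | h5
      · exact absurd h5 hw1
      · simp only [mem_iUnion] at h5 ⊢
        obtain ⟨i, hi, hv⟩ := h5
        exact ⟨i, hi.1, hv⟩
  refine Set.Countable.mono h3 ((Set.countable_singleton z).union ?_)
  exact Set.Countable.biUnion (Set.to_countable A) h1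

/-! ## Rank of a set of sequences of length `m` -/

/-- section -/
def sec (x : Set (List ℕ)) (i : ℕ) : Set (List ℕ) := {s | i :: s ∈ x}

/-- the elements of `x` of length `m` contain a tree with at least `r` large splitting levels -/
def Rk : ℕ → ℕ → Set (List ℕ) → Prop
  | 0, 0, x => [] ∈ x
  | 0, _ + 1, _ => False
  | m + 1, 0, x => ∃ i, Rk m 0 (sec x i)
  | m + 1, r + 1, x => (∃ i, Rk m (r + 1) (sec x i)) ∨ Pos {i | Rk m r (sec x i)}

theorem sec_mono {x y : Set (List ℕ)} (h : x ⊆ y) (i : ℕ) : sec x i ⊆ sec y i := fun _ hs => h hs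

theorem rk_mono (m : ℕ) : ∀ (r : ℕ) (x y : Set (List ℕ)), x ⊆ y → Rk m r x → Rk m r y := by
  induction m with
  | zero =>
    intro r x y h hx
    cases r with
    | zero => exact h hx
    | succ r => exact hx
  | succ m ih =>
    intro r x y h hx
    cases r with
    | zero =>
      obtain ⟨i, hi⟩ := hx
      exact ⟨i, ih 0 _ _ (sec_mono h i) hi⟩
    | succ r =>
      rcases hx with ⟨i, hi⟩ | hx
      · exact Or.inl ⟨i, ih _ _ _ (sec_mono h i) hi⟩
      · exact Or.inr (pos_mono (fun i hi => ih _ _ _ (sec_mono h i) hi) hx)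

theorem rk_union (m : ℕ) : ∀ (r : ℕ) (x y : Set (List ℕ)), Rk m r (x ∪ y) →
    Rk m r x ∨ Rk m r y := by
  induction m with
  | zero =>
    intro r x y h
    cases r with
    | zero => exact h
    | succ r => exact Or.inl h
  | succ m ih =>
    intro r x y h
    cases r with
    | zero =>
      obtain ⟨i, hi⟩ := h
      rcases ih 0 (sec x i) (sec y i) hi with h | h
      · exact Or.inl ⟨i, h⟩
      · exact Or.inr ⟨i, h⟩
    | succ r =>
      rcases h with ⟨i, hi⟩ | h
      · rcases ih (r + 1) (sec x i) (sec y i) hi with h | h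
        · exact Or.inl (Or.inl ⟨i, h⟩)
        · exact Or.inr (Or.inl ⟨i, h⟩)
      · have h1 : {i | Rk m r (sec (x ∪ y) i)} ⊆ {i | Rk m r (sec x i)} ∪ {i | Rk m r (sec y i)} :=
          fun i hi => ih r (sec x i) (sec y i) hi
        rcases pos_union (pos_mono h1 h) with h | h
        · exact Or.inl (Or.inr h)
        · exact Or.inr (Or.inr h)

theorem rk_le (m : ℕ) : ∀ (r : ℕ) (x : Set (List ℕ)), Rk m r x → r ≤ m := by
  induction m with
  | zero =>
    intro r x h
    cases r with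
    | zero => exact le_rfl
    | succ r => exact absurd h id
  | succ m ih =>
    intro r x h
    cases r with
    | zero => exact Nat.zero_le _
    | succ r =>
      rcases h with ⟨i, hi⟩ | h
      · exact (ih _ _ hi).trans (Nat.le_succ m)
      · obtain ⟨i, hi⟩ := pos_nonempty h
        exact Nat.succ_le_succ (ih _ _ hi)

theorem rk_pred (m : ℕ) : ∀ (r : ℕ) (x : Set (List ℕ)), Rk m (r + 1) x → Rk m r x := by
  induction m with
  | zero => exact fun r x h => absurd h id
  | succ m ih =>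
    intro r x h
    cases r with
    | zero =>
      rcases h with ⟨i, hi⟩ | h
      · exact ⟨i, ih _ _ hi⟩
      · obtain ⟨i, hi⟩ := pos_nonempty h
        exact ⟨i, hi⟩
    | succ r =>
      rcases h with ⟨i, hi⟩ | h
      · exact Or.inl ⟨i, ih _ _ hi⟩
      · exact Or.inr (pos_mono (fun i hi => ih _ _ hi) h)

theorem rk_anti (m : ℕ) (x : Set (List ℕ)) {r r' : ℕ} (h : r' ≤ r) (hx : Rk m r x) :
    Rk m r' x := by
  induction h with
  | refl => exact hx
  | step _ ih => exact ih (rk_pred m _ x hx)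

/-- the elements of `x` of length `m` -/
def len (m : ℕ) : Set (List ℕ) := {s | s.length = m}

theorem rk_len (m : ℕ) : ∀ (r : ℕ) (x : Set (List ℕ)), Rk m r x → Rk m r (x ∩ len m) := by
  induction m with
  | zero =>
    intro r x h
    cases r with
    | zero => exact ⟨h, rfl⟩
    | succ r => exact h
  | succ m ih =>
    have hs : ∀ (x : Set (List ℕ)) (i : ℕ), sec x i ∩ len m ⊆ sec (x ∩ len (m + 1)) i := by
      rintro x i s ⟨h1, h2⟩
      refine ⟨h1, ?_⟩
      change (i :: s).length = m + 1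
      rw [List.length_cons]
      exact congrArg (· + 1) h2
    intro r x h
    cases r with
    | zero =>
      obtain ⟨i, hi⟩ := h
      exact ⟨i, rk_mono m _ _ _ (hs x i) (ih _ _ hi)⟩
    | succ r =>
      rcases h with ⟨i, hi⟩ | h
      · exact Or.inl ⟨i, rk_mono m _ _ _ (hs x i) (ih _ _ hi)⟩
      · exact Or.inr (pos_mono (fun i hi => rk_mono m _ _ _ (hs x i) (ih _ _ hi)) h)

theorem rk_exists (m : ℕ) : ∀ (r : ℕ) (x : Set (List ℕ)), Rk m r x → ∃ s ∈ x, s.length = m := by
  induction m with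
  | zero =>
    intro r x h
    cases r with
    | zero => exact ⟨[], h, rfl⟩
    | succ r => exact absurd h id
  | succ m ih =>
    intro r x h
    have : ∃ i r', Rk m r' (sec x i) := by
      cases r with
      | zero =>
        obtain ⟨i, hi⟩ := h
        exact ⟨i, _, hi⟩
      | succ r =>
        rcases h with ⟨i, hi⟩ | h
        · exact ⟨i, _, hi⟩
        · obtain ⟨i, hi⟩ := pos_nonempty h
          exact ⟨i, _, hi⟩
    obtain ⟨i, r', hi⟩ := this
    obtain ⟨s, hs, hl⟩ := ih _ _ hi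
    exact ⟨i :: s, hs, by rw [List.length_cons, hl]⟩

theorem rk_univ (m : ℕ) : Rk m m Set.univ := by
  induction m with
  | zero => exact Set.mem_univ _
  | succ m ih =>
    right
    refine pos_mono ?_ pos_univ
    intro i _
    exact ih

/-! ## Positive sets -/

/-- positive sets of finite sequences -/
def PosS (x : Set (List ℕ)) : Prop := ∀ r, ∃ m, Rk m r x

theorem posS_mono {x y : Set (List ℕ)} (h : x ⊆ y) (hx : PosS x) : PosS y := by
  intro r
  obtain ⟨m, hm⟩ := hx r
  exact ⟨m, rk_mono m r x y h hm⟩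

theorem posS_union {x y : Set (List ℕ)} (h : PosS (x ∪ y)) : PosS x ∨ PosS y := by
  by_contra hn
  push Not at hn
  obtain ⟨h1, h2⟩ := hn
  unfold PosS at h1 h2
  push Not at h1 h2
  obtain ⟨r1, h1⟩ := h1
  obtain ⟨r2, h2⟩ := h2
  obtain ⟨m, hm⟩ := h (max r1 r2)
  rcases rk_union m _ x y hm with h3 | h3
  · exact h1 m (rk_anti m x (le_max_left _ _) h3)
  · exact h2 m (rk_anti m y (le_max_right _ _) h3)

theorem posS_univ : PosS Set.univ := fun r => ⟨r, rk_univ r⟩

theorem not_posS_of_bdd {x : Set (List ℕ)} (M : ℕ) (h : ∀ s ∈ x, s.length < M) : ¬ PosS x := by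
  intro hx
  obtain ⟨m, hm⟩ := hx M
  have h1 := rk_le m M x hm
  obtain ⟨s, hs, hl⟩ := rk_exists m M x hm
  have := h s hs
  omega

theorem not_posS_empty : ¬ PosS ∅ := not_posS_of_bdd 0 fun s hs => absurd hs (Set.notMem_empty s)

/-- lower bounds of countable families -/
theorem posS_sigma (x : ℕ → Set (List ℕ)) (h : ∀ n, PosS (⋂ k ∈ Finset.range (n + 1), x k)) :
    ∃ y, PosS y ∧ ∀ k, ¬ PosS (y \ x k) := by
  choose m hm using fun n => h n n
  refine ⟨⋃ n, ((⋂ k ∈ Finset.range (n + 1), x k) ∩ len (m n)), ?_, ?_⟩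
  · intro r
    exact ⟨m r, rk_mono _ _ _ _ (Set.subset_iUnion
      (fun n => ((⋂ k ∈ Finset.range (n + 1), x k) ∩ len (m n))) r) (rk_len _ _ _ (hm r))⟩
  · intro k
    refine not_posS_of_bdd (∑ n ∈ Finset.range k, m n + 1) ?_
    rintro s ⟨hs, hsk⟩
    obtain ⟨n, hn⟩ := Set.mem_iUnion.1 hs
    have hnk : n < k := by
      by_contra hnk
      apply hsk
      have h1 := hn.1
      simp only [mem_iInter] at h1
      exact h1 k (Finset.mem_range.2 (by omega))
    have h2 : s.length = m n := hn.2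
    have h3 : m n ≤ ∑ n ∈ Finset.range k, m n :=
      Finset.single_le_sum (f := m) (fun _ _ => Nat.zero_le _) (Finset.mem_range.2 hnk)
    omega

end Pool.H33ULT
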