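import Mathlib

/-!
# Ultrafilters from towers of length `ω₁`
-/

set_option autoImplicit false

namespace Pool.H33ULT

open Set

theorem exists_ultra {S R : Type} [Nonempty R] (P : Set S → Prop)
    (hmono : ∀ x y, x ⊆ y → P x → P y) (hunion : ∀ x y, P (x ∪ y) → P x ∨ P y)
    (huniv : P Set.univ) (hempty : ¬ P ∅)
    (hsigma : ∀ x : ℕ → Set S, (∀ n, P (⋂ k ∈ Finset.range (n + 1), x k)) →
      ∃ y, P y ∧ ∀ k, ¬ P (y \ x k))
    (M : R → Set S → Prop) (hdense : ∀ a x, P x → ∃ y, y ⊆ x ∧ P y ∧ M a y)
    (hR : Cardinal.mk R ≤ Cardinal.aleph 1) :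
    ∃ U : Ultrafilter S, (∀ z ∈ U, P z) ∧ ∀ a, ∃ y ∈ U, M a y := by
  classical
  obtain ⟨r, wo, hr⟩ := Cardinal.exists_ord_eq R
  have hcount : ∀ a, {b | r b a}.Countable := by
    intro a
    rw [Cardinal.countable_iff_lt_aleph_one]
    refine lt_of_lt_of_le ?_ hR
    have h := Cardinal.card_typein_lt (r := r) a hr
    rw [Ordinal.card_typein] at h
    exact h
  have htri : ∀ a b, r a b ∨ a = b ∨ r b a := fun a b => trichotomous_of r a b
  -- the recursion
  let step : (a : R) → ((b : R) → r b a → Set S) → Set S := fun a X =>
    if h : ∃ y, P y ∧ (∀ (b : R) (hb : r b a), ¬ P (y \ X b hb)) ∧ M a y then Classical.choose h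
      else Set.univ
  let x : R → Set S := IsWellFounded.fix r step
  have hx : ∀ a, x a = step a (fun b _ => x b) := fun a => IsWellFounded.fix_eq r step a
  have hdiff : ∀ y z w : Set S, ¬ P (y \ z) → ¬ P (z \ w) → ¬ P (y \ w) := by
    intro y z w h1 h2 h3
    have h4 : y \ w ⊆ (y \ z) ∪ (z \ w) := by
      intro s hs
      by_cases hz : s ∈ z
      · exact Or.inr ⟨hz, hs.2⟩
      · exact Or.inl ⟨hs.1, hz⟩
    rcases hunion _ _ (hmono _ _ h4 h3) with h5 | h5
    · exact h1 h5
    · exact h2 h5
  have hself : ∀ y : Set S, ¬ P (y \ y) := fun y h => hempty (by rwa [Set.diff_self] at h)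
  have hmain : ∀ a, P (x a) ∧ (∀ b, r b a → ¬ P (x a \ x b)) ∧ M a (x a) := by
    intro a
    induction a using IsWellFounded.induction r with
    | ind a ih =>
      have hex : ∃ y, P y ∧ (∀ (b : R) (_ : r b a), ¬ P (y \ x b)) ∧ M a y := by
        by_cases hne : {b | r b a}.Nonempty
        · obtain ⟨e, he⟩ := (hcount a).exists_eq_range hne
          have hea : ∀ n, r (e n) a := by
            intro n
            have : e n ∈ {b | r b a} := by
              rw [he]
              exact ⟨n, rfl⟩
            exact this
          have hmax : ∀ n, ∃ j ∈ Finset.range (n + 1), ∀ k ∈ Finset.range (n + 1),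
              ¬ P (x (e j) \ x (e k)) := by
            intro n
            induction n with
            | zero =>
              refine ⟨0, by simp, ?_⟩
              intro k hk
              have : k = 0 := by
                have := Finset.mem_range.1 hk
                omega
              rw [this]
              exact hself _
            | succ n ihn =>
              obtain ⟨j, hj, hjk⟩ := ihn
              have hj' := Finset.mem_range.1 hj
              rcases htri (e j) (e (n + 1)) with h | h | h
              · -- the new one is larger
                have h1 : ¬ P (x (e (n + 1)) \ x (e j)) := (ih (e (n + 1)) (hea _)).2.1 _ h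
                refine ⟨n + 1, Finset.mem_range.2 (by omega), ?_⟩
                intro k hk
                have hk' := Finset.mem_range.1 hk
                by_cases hkn : k = n + 1
                · rw [hkn]
                  exact hself _
                · exact hdiff _ _ _ h1 (hjk k (Finset.mem_range.2 (by omega)))
              · refine ⟨j, Finset.mem_range.2 (by omega), ?_⟩
                intro k hk
                have hk' := Finset.mem_range.1 hk
                by_cases hkn : k = n + 1
                · rw [hkn, ← h]
                  exact hself _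
                · exact hjk k (Finset.mem_range.2 (by omega))
              · refine ⟨j, Finset.mem_range.2 (by omega), ?_⟩
                intro k hk
                have hk' := Finset.mem_range.1 hk
                by_cases hkn : k = n + 1
                · rw [hkn]
                  exact (ih (e j) (hea _)).2.1 _ h
                · exact hjk k (Finset.mem_range.2 (by omega))
          have hfin : ∀ n, P (⋂ k ∈ Finset.range (n + 1), x (e k)) := by
            intro n
            obtain ⟨j, hj, hjk⟩ := hmax n
            have h1 : P (x (e j)) := (ih (e j) (hea j)).1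
            have h2 : ∀ t : Finset ℕ, (∀ k ∈ t, ¬ P (x (e j) \ x (e k))) →
                ¬ P (x (e j) \ ⋂ k ∈ t, x (e k)) := by
              intro t
              induction t using Finset.induction_on with
              | empty =>
                intro _ h
                simp only [Finset.notMem_empty, iInter_of_empty, iInter_univ, diff_univ] at h
                exact hempty h
              | insert c t _ iht =>
                intro h3 h4
                rw [Finset.set_biInter_insert, Set.diff_inter] at h4
                rcases hunion _ _ h4 with h5 | h5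
                · exact h3 c (Finset.mem_insert_self c t) h5
                · exact iht (fun k hk => h3 k (Finset.mem_insert_of_mem hk)) h5
            have h3 := h2 _ hjk
            rcases hunion _ _ (hmono _ _ (by rw [Set.inter_union_diff]) h1 :
                P ((x (e j) ∩ ⋂ k ∈ Finset.range (n + 1), x (e k)) ∪
                  (x (e j) \ ⋂ k ∈ Finset.range (n + 1), x (e k)))) with h4 | h4
            · exact hmono _ _ Set.inter_subset_right h4
            · exact absurd h4 h3
          obtain ⟨y, hy1, hy2⟩ := hsigma _ hfin
          obtain ⟨y', hy'1, hy'2, hy'3⟩ := hdense a y hy1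
          refine ⟨y', hy'2, ?_, hy'3⟩
          intro b hb
          have hb' : b ∈ Set.range e := by
            rw [← he]
            exact hb
          obtain ⟨k, rfl⟩ := hb'
          exact fun h => hy2 k (hmono _ _ (Set.diff_subset_diff_left hy'1) h)
        · obtain ⟨y, _, hy2, hy3⟩ := hdense a Set.univ huniv
          refine ⟨y, hy2, ?_, hy3⟩
          intro b hb
          exact absurd ⟨b, hb⟩ hne
      have h1 : x a = Classical.choose hex := by
        rw [hx a]
        exact dif_pos hex
      have h2 := Classical.choose_spec hex
      rw [← h1] at h2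
      exact h2
  have hle : ∀ a b, ∃ c, ¬ P (x c \ x a) ∧ ¬ P (x c \ x b) := by
    intro a b
    rcases htri a b with h | h | h
    · exact ⟨b, (hmain b).2.1 a h, hself _⟩
    · exact ⟨b, by rw [h]; exact hself _, hself _⟩
    · exact ⟨a, hself _, (hmain a).2.1 b h⟩
  -- the filter
  let 𝓕 : Filter S :=
    { sets := {z | ∃ a, ¬ P (x a \ z)}
      univ_sets := by
        obtain ⟨a⟩ := ‹Nonempty R›
        refine ⟨a, ?_⟩
        rw [Set.diff_univ]
        exact hempty
      sets_of_superset := by
        rintro z w ⟨a, ha⟩ hzw
        exact ⟨a, fun h => ha (hmono _ _ (Set.diff_subset_diff_right hzw) h)⟩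
      inter_sets := by
        rintro z w ⟨a, ha⟩ ⟨b, hb⟩
        obtain ⟨c, hca, hcb⟩ := hle a b
        refine ⟨c, fun h => ?_⟩
        rw [Set.diff_inter] at h
        rcases hunion _ _ h with h | h
        · exact hdiff _ _ _ hca ha h
        · exact hdiff _ _ _ hcb hb h }
  have hF : ∀ z, z ∈ 𝓕 ↔ ∃ a, ¬ P (x a \ z) := fun z => Iff.rfl
  haveI : 𝓕.NeBot := by
    refine Filter.neBot_iff.2 fun hbot => ?_
    have h1 : (∅ : Set S) ∈ 𝓕 := by
      rw [hbot]
      exact Filter.mem_bot
    obtain ⟨a, ha⟩ := (hF ∅).1 h1
    rw [Set.diff_empty] at ha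
    exact ha (hmain a).1
  refine ⟨Ultrafilter.of 𝓕, ?_, ?_⟩
  · intro z hz
    by_contra hPz
    obtain ⟨a⟩ := ‹Nonempty R›
    have h1 : zᶜ ∈ 𝓕 := by
      refine (hF _).2 ⟨a, fun h => hPz (hmono _ _ ?_ h)⟩
      intro s hs
      by_contra hsz
      exact hs.2 hsz
    have h2 : zᶜ ∈ (Ultrafilter.of 𝓕 : Filter S) := Ultrafilter.of_le 𝓕 h1
    exact Ultrafilter.compl_notMem_iff.2 hz h2
  · intro a
    refine ⟨x a, ?_, (hmain a).2.2⟩
    exact Ultrafilter.of_le 𝓕 ((hF _).2 ⟨a, hself _⟩)

end Pool.H33ULT
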